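import Pool.Agent.Helper19_RFK.Stmts

/-!
# Squad RFK: EIG and PHI (positivity of `a + pot u`)
-/

set_option autoImplicit false

open MeasureTheory Set Pool.Agent.Helper19_LogPot
open scoped ENNReal Topology

namespace Pool.Agent.RFK.H75

lemma lap_add_const (r a : ℝ) (p : ℂ → ℝ) (x : ℂ) : lap r (fun y => a + p y) x = lap r p x := by
  unfold lap
  congr 1
  funext h
  ring

/-- Positivity of `a + pot u` if it is almost nonnegative at infinity. -/
lemma key (hreg : RegStmt) (hmvi : MviStmt) (hmaxp : MaxpStmt) {E : Set ℂ} {u : ℂ → ℝ} {a t : ℝ}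
    (hE : MeasurableSet E) (hb : Bornology.IsBounded E) (ht : t < 0)
    (hu : MemLp u 2 (volume.restrict E))
    (heq : ∀ᵐ x ∂(volume.restrict E), -t * u x = a + pot E u x)
    (hinf : ∀ ε : ℝ, 0 < ε → ∃ ρ : ℝ, ∀ x : ℂ, ρ ≤ ‖x‖ → -ε ≤ a + pot E u x) :
    ∀ x, 0 ≤ a + pot E u x := by
  set p : ℂ → ℝ := fun x => a + pot E u x with hp
  have hc : Continuous p := continuous_const.add (hreg E u hE hb hu)
  have hlap : ∀ r : ℝ, 0 < r → ∀ x, lap r p x = (-t)⁻¹ * ∫ y in E, qk r (x - y) * p y := by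
    intro r hr x
    rw [hp, lap_add_const, hmvi E u hE hb hu r hr x, ← integral_const_mul]
    apply integral_congr_ae
    filter_upwards [heq] with y hy
    have ht0 : (-t) ≠ 0 := by linarith
    have h1 : (-t)⁻¹ * (qk r (x - y) * (a + pot E u y)) =
        qk r (x - y) * ((-t)⁻¹ * (-t * u y)) := by
      rw [hy]
      ring
    rw [h1, ← mul_assoc (-t)⁻¹, inv_mul_cancel₀ ht0, one_mul]
  intro x₁
  by_contra hneg
  push Not at hneg
  have hneg' : p x₁ < 0 := hneg
  obtain ⟨ρ, hρ⟩ := hinf (-(p x₁) / 2) (by linarith)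
  have hρ' : ∀ x : ℂ, ρ ≤ ‖x‖ → p x₁ / 2 ≤ p x := by
    intro x hx
    have := hρ x hx
    have h2 : -(-(p x₁) / 2) = p x₁ / 2 := by ring
    rw [h2] at this
    exact this
  set R : ℝ := max ρ ‖x₁‖ with hR
  have hcomp : IsCompact (Metric.closedBall (0 : ℂ) R) := isCompact_closedBall 0 R
  have hx₁ : x₁ ∈ Metric.closedBall (0 : ℂ) R := by
    rw [mem_closedBall_zero_iff]
    exact le_max_right _ _
  obtain ⟨x₀, hx₀, hmin⟩ := hcomp.exists_isMinOn ⟨x₁, hx₁⟩ hc.continuousOn
  have h01 : p x₀ ≤ p x₁ := hmin hx₁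
  have hall : ∀ x, p x₀ ≤ p x := by
    intro x
    by_cases hx : x ∈ Metric.closedBall (0 : ℂ) R
    · exact hmin hx
    · rw [mem_closedBall_zero_iff, not_le] at hx
      have h3 := hρ' x (le_trans (le_max_left _ _) hx.le)
      linarith
  have hconst := hmaxp E p (-t)⁻¹ hE hc (inv_pos.2 (by linarith)) hlap x₀ hall (by linarith)
  have h4 := hρ' (((|ρ| : ℝ) : ℂ)) (by
    rw [Complex.norm_real, Real.norm_eq_abs, abs_abs]
    exact le_abs_self ρ)
  rw [hconst (((|ρ| : ℝ) : ℂ))] at h4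
  linarith

/-- Behaviour at infinity when the mass is positive. -/
lemma inf_of_pos (hasy : AsyStmt) {E : Set ℂ} {u : ℂ → ℝ} (a : ℝ)
    (hE : MeasurableSet E) (hb : Bornology.IsBounded E)
    (hu : MemLp u 2 (volume.restrict E)) (hM : 0 < ∫ x in E, u x) (ε : ℝ) (hε : 0 < ε) :
    ∃ ρ : ℝ, ∀ x : ℂ, ρ ≤ ‖x‖ → -ε ≤ a + pot E u x := by
  obtain ⟨ρ₁, hρ₁⟩ := hasy E u hE hb hu 1 one_pos
  set M : ℝ := ∫ x in E, u x with hMdef
  refine ⟨max ρ₁ (Real.exp ((1 - a) / M)), fun x hx => ?_⟩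
  have h1 := (abs_le.1 (hρ₁ x (le_trans (le_max_left _ _) hx))).1
  have h2 : Real.exp ((1 - a) / M) ≤ ‖x‖ := le_trans (le_max_right _ _) hx
  have h3 : (1 - a) / M ≤ Real.log ‖x‖ := by
    rw [Real.le_log_iff_exp_le (lt_of_lt_of_le (Real.exp_pos _) h2)]
    exact h2
  have h4 : 1 - a ≤ M * Real.log ‖x‖ := by
    rw [div_le_iff₀ hM] at h3
    linarith
  linarith

theorem phi (hreg : RegStmt) (hmvi : MviStmt) (hmaxp : MaxpStmt) (hasy : AsyStmt) : PhiStmt := by
  intro E t u hE hb ht hu heq hM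
  exact key hreg hmvi hmaxp hE hb ht hu heq (inf_of_pos hasy 1 hE hb hu hM)

lemma pot_const_mul (E : Set ℂ) (u : ℂ → ℝ) (b : ℝ) (x : ℂ) :
    pot E (fun y => b * u y) x = b * pot E u x := by
  unfold pot
  rw [← integral_const_mul]
  congr 1
  funext y
  ring

theorem eig (hreg : RegStmt) (hmvi : MviStmt) (hmaxp : MaxpStmt) (hasy : AsyStmt) : EigStmt := by
  intro E t hE hb ht hev
  obtain ⟨v, hv, hv0, hveq⟩ := hev
  have heq : ∀ᵐ x ∂(volume.restrict E), -t * v x = pot E v x := by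
    filter_upwards [hveq] with x hx
    have h1 : ∫ y in E, Real.log (1 / ‖x - y‖) * v y = -pot E v x := by
      unfold pot
      rw [← integral_neg]
      congr 1
      funext y
      rw [one_div, Real.log_inv]
      ring
    rw [h1] at hx
    linarith
  -- scaling
  have hscale : ∀ b : ℝ, ∀ᵐ x ∂(volume.restrict E),
      -t * (b * v x) = 0 + pot E (fun y => b * v y) x := by
    intro b
    filter_upwards [heq] with x hx
    rw [pot_const_mul, ← hx]
    ring
  have hmem : ∀ b : ℝ, MemLp (fun y => b * v y) 2 (volume.restrict E) := fun b =>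
    hv.const_mul b
  by_cases hM : ∫ x in E, v x = 0
  · exfalso
    have hzero : ∀ b : ℝ, ∫ x in E, b * v x = 0 := by
      intro b
      rw [integral_const_mul, hM, mul_zero]
    have hpos : ∀ b : ℝ, ∀ x, 0 ≤ b * pot E v x := by
      intro b x
      have := key hreg hmvi hmaxp hE hb ht (hmem b) (hscale b) (by
        intro ε hε
        obtain ⟨ρ₁, hρ₁⟩ := hasy E (fun y => b * v y) hE hb (hmem b) ε hε
        refine ⟨ρ₁, fun x hx => ?_⟩
        have h1 := (abs_le.1 (hρ₁ x hx)).1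
        rw [hzero b, zero_mul, sub_zero] at h1
        linarith) x
      rw [pot_const_mul, zero_add] at this
      exact this
    have hp0 : ∀ x, pot E v x = 0 := by
      intro x
      have h1 := hpos 1 x
      have h2 := hpos (-1) x
      linarith
    apply hv0
    filter_upwards [heq] with x hx
    rw [hp0 x] at hx
    have ht0 : -t ≠ 0 := by linarith
    have := (mul_eq_zero.1 hx).resolve_left ht0
    rw [this]
    rfl
  · set M : ℝ := ∫ x in E, v x with hMdef
    have hone : ∫ x in E, M⁻¹ * v x = 1 := by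
      rw [integral_const_mul, ← hMdef, inv_mul_cancel₀ hM]
    refine ⟨fun y => M⁻¹ * v y, hmem M⁻¹, ?_, hone, ?_⟩
    · filter_upwards [hscale M⁻¹] with x hx
      rw [zero_add] at hx
      exact hx
    · intro x
      have := key hreg hmvi hmaxp hE hb ht (hmem M⁻¹) (hscale M⁻¹)
        (inf_of_pos hasy 0 hE hb (hmem M⁻¹) (by rw [hone]; exact one_pos)) x
      rw [zero_add] at this
      exact this

end Pool.Agent.RFK.H75
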